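import Pool.Agent.R999.Brg

/-!
# Neutral Thomas-Fermi theory: dependence of the kinetic energy on the coefficient `γ`
-/

set_option autoImplicit false

namespace Pool.Agent.N288.TFD

open MeasureTheory Set Filter Topology Metric
open Pool.Agent.TH791.Cl Pool.Agent.TH791.Nw Pool.Agent.R999.Pot Pool.Agent.R999.MinP
open Pool.Agent.R999.Newton Pool.Agent.R999.Ex
open scoped ENNReal

variable {ι : Type*} [Fintype ι]

/-- the neutral Thomas-Fermi density for the coefficient `γ` -/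
noncomputable def sol (z : ι → ℝ) (R : ι → E3) (γ : ℝ) : E3 → ℝ := by
  classical
  exact if h : ∃ ρ, TFs γ z R ρ then h.choose else 0

lemma sol_spec {γ : ℝ} (hγ : 0 < γ) {z : ι → ℝ} (hz : ∀ j, 0 ≤ z j) (R : ι → E3) :
    TFs γ z R (sol z R γ) := by
  have h := tf_ex hγ hz R
  unfold sol
  rw [dif_pos h]
  exact h.choose_spec

/-- `(3/5) ∫ ρ^(5/3)` for the neutral density with coefficient `γ` -/
noncomputable def kf (z : ι → ℝ) (R : ι → E3) (γ : ℝ) : ℝ := 3/5 * ∫ x, (sol z R γ x) ^ (5/3 : ℝ)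

/-- the minimum of the energy (without nuclear repulsion) -/
noncomputable def ph (z : ι → ℝ) (R : ι → E3) (γ : ℝ) : ℝ := En γ z R (sol z R γ)

lemma kf_nonneg (z : ι → ℝ) (R : ι → E3) {γ : ℝ} (hγ : 0 < γ) (hz : ∀ j, 0 ≤ z j) :
    0 ≤ kf z R γ := by
  unfold kf
  have := integral_nonneg (μ := volume) (f := fun x => (sol z R γ x) ^ (5/3 : ℝ))
    fun x => Real.rpow_nonneg ((sol_spec hγ hz R).md.nonneg x) _
  positivity

lemma tfs_unique {γ : ℝ} (hγ : 0 < γ) {z : ι → ℝ} {R : ι → E3} {ρ σ : E3 → ℝ}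
    (h1 : TFs γ z R ρ) (h2 : TFs γ z R σ) : ρ =ᵐ[volume] σ := by
  filter_upwards [(h1.mono hγ (fun _ => le_rfl) h2).2, (h2.mono hγ (fun _ => le_rfl) h1).2]
    with x a b
  exact le_antisymm a b

lemma kf_eq {γ : ℝ} (hγ : 0 < γ) {z : ι → ℝ} (hz : ∀ j, 0 ≤ z j) {R : ι → E3} {ρ : E3 → ℝ}
    (h : TFs γ z R ρ) : kf z R γ = 3/5 * ∫ x, (ρ x) ^ (5/3 : ℝ) := by
  unfold kf
  congr 1
  refine integral_congr_ae ((tfs_unique hγ (sol_spec hγ hz R) h).mono fun x hx => ?_)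
  show sol z R γ x ^ (5/3 : ℝ) = ρ x ^ (5/3 : ℝ)
  rw [hx]

lemma ph_eq {γ : ℝ} (hγ : 0 < γ) {z : ι → ℝ} (hz : ∀ j, 0 ≤ z j) {R : ι → E3} {ρ : E3 → ℝ}
    (h : TFs γ z R ρ) : ph z R γ = En γ z R ρ :=
  le_antisymm ((sol_spec hγ hz R).min hγ h.md) (h.min hγ (sol_spec hγ hz R).md)

lemma ph_le {γ : ℝ} (hγ : 0 < γ) {z : ι → ℝ} (hz : ∀ j, 0 ≤ z j) {R : ι → E3} {ρ : E3 → ℝ}
    (h : MD ρ) : ph z R γ ≤ En γ z R ρ := (sol_spec hγ hz R).min hγ h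

lemma En_gamma (γ γ' : ℝ) (z : ι → ℝ) (R : ι → E3) (ρ : E3 → ℝ) :
    En γ' z R ρ = En γ z R ρ + (γ' - γ) * (3/5 * ∫ x, (ρ x) ^ (5/3 : ℝ)) := by
  unfold En; ring

/-- the kinetic energy is a supergradient -/
lemma ph_super {γ γ' : ℝ} (hγ : 0 < γ) (hγ' : 0 < γ') {z : ι → ℝ} (hz : ∀ j, 0 ≤ z j)
    (R : ι → E3) : ph z R γ' ≤ ph z R γ + kf z R γ * (γ' - γ) := by
  have h := ph_le hγ' hz (R := R) (sol_spec hγ hz R).md
  rw [En_gamma γ γ'] at h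
  unfold ph kf at *
  linarith

/-- sum of the two energy identities -/
lemma two_breg {γ1 γ2 : ℝ} (h1 : 0 < γ1) (h12 : γ1 ≤ γ2) {z : ι → ℝ} (hz : ∀ j, 0 ≤ z j)
    (R : ι → E3) :
    γ1 * (∫ x, ((sol z R γ1 x) ^ (2/3 : ℝ) - (sol z R γ2 x) ^ (2/3 : ℝ)) *
      (sol z R γ1 x - sol z R γ2 x)) ≤ (γ2 - γ1) * (kf z R γ1 - kf z R γ2) := by
  have h2 : 0 < γ2 := lt_of_lt_of_le h1 h12
  have T1 := sol_spec h1 hz R
  have T2 := sol_spec h2 hz R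
  set s1 := sol z R γ1 with hs1
  set s2 := sol z R γ2 with hs2
  have b1 := T1.breg T2.md
  have b2 := T2.breg T1.md
  rw [En_gamma γ2 γ1] at b1
  rw [En_gamma γ1 γ2] at b2
  have c1 := coul_nonneg (nice_sub T2.md.nice T1.md.nice)
  have c2 := coul_nonneg (nice_sub T1.md.nice T2.md.nice)
  have i1 := bg_int T1.md T2.md
  have i2 := bg_int T2.md T1.md
  have n1 : 0 ≤ ∫ x, bg (s1 x) (s2 x) :=
    integral_nonneg fun x => bg_nonneg (T1.md.nonneg x) (T2.md.nonneg x)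
  have n2 : 0 ≤ ∫ x, bg (s2 x) (s1 x) :=
    integral_nonneg fun x => bg_nonneg (T2.md.nonneg x) (T1.md.nonneg x)
  have e : ∫ x, ((s1 x) ^ (2/3 : ℝ) - (s2 x) ^ (2/3 : ℝ)) * (s1 x - s2 x) =
      (∫ x, bg (s1 x) (s2 x)) + ∫ x, bg (s2 x) (s1 x) := by
    rw [← integral_add i1 i2]
    congr 1
    funext x
    unfold bg
    ring
  rw [e]
  have n3 : γ1 * (∫ x, bg (s2 x) (s1 x)) ≤ γ2 * ∫ x, bg (s2 x) (s1 x) :=
    mul_le_mul_of_nonneg_right h12 n2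
  unfold kf
  rw [← hs1, ← hs2]
  nlinarith

lemma kf_anti {γ1 γ2 : ℝ} (h1 : 0 < γ1) (h12 : γ1 ≤ γ2) {z : ι → ℝ} (hz : ∀ j, 0 ≤ z j)
    (R : ι → E3) : kf z R γ2 ≤ kf z R γ1 := by
  rcases eq_or_lt_of_le h12 with h | h
  · rw [h]
  have h2 : 0 < γ2 := h1.trans h
  have a := ph_super h1 h2 hz R
  have b := ph_super h2 h1 hz R
  nlinarith

/-- pointwise inequality -/
lemma pt {a b τ : ℝ} (ha : 0 ≤ a) (hb : 0 ≤ b) (hτ : 0 < τ) :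
    3/5 * (a ^ (5/3 : ℝ) - b ^ (5/3 : ℝ)) ≤ τ * ((a ^ (2/3 : ℝ) - b ^ (2/3 : ℝ)) * (a - b)) +
      9 / (4 * τ) * (a ^ (5/3 : ℝ) + b ^ (5/3 : ℝ)) := by
  obtain ⟨u, hu, ea, e5, e2⟩ := cube_root ha
  obtain ⟨v, hv, eb, f5, f2⟩ := cube_root hb
  rw [e5, e2, f5, f2, ea, eb]
  have hτ4 : (0:ℝ) < 9 / (4 * τ) := by positivity
  rcases le_total u v with h | h
  · have h1 : u ^ 5 ≤ v ^ 5 := pow_le_pow_left₀ hu h 5
    have h2 : u ^ 2 ≤ v ^ 2 := pow_le_pow_left₀ hu h 2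
    have h3 : u ^ 3 ≤ v ^ 3 := pow_le_pow_left₀ hu h 3
    have h4 : 0 ≤ (u ^ 2 - v ^ 2) * (u ^ 3 - v ^ 3) := mul_nonneg_of_nonpos_of_nonpos
      (by linarith) (by linarith)
    have h5 : 0 ≤ 9 / (4 * τ) * (u ^ 5 + v ^ 5) := by positivity
    have h6 := mul_nonneg hτ.le h4
    linarith
  · have hd : 0 ≤ u - v := by linarith
    have k1 : (u - v) ^ 2 * u ^ 3 ≤ (u ^ 2 - v ^ 2) * (u ^ 3 - v ^ 3) := by
      have : (u ^ 2 - v ^ 2) * (u ^ 3 - v ^ 3) - (u - v) ^ 2 * u ^ 3 =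
          (u - v) ^ 2 * (u * (u * v + v ^ 2) + v * (u ^ 2 + u * v + v ^ 2)) := by ring
      have h0 : 0 ≤ (u - v) ^ 2 * (u * (u * v + v ^ 2) + v * (u ^ 2 + u * v + v ^ 2)) := by
        positivity
      linarith
    have k2 : u ^ 5 - v ^ 5 ≤ 5 * ((u - v) * u ^ 4) := by
      have : 5 * ((u - v) * u ^ 4) - (u ^ 5 - v ^ 5) =
          (u - v) ^ 2 * (4 * u ^ 3 + 3 * u ^ 2 * v + 2 * u * v ^ 2 + v ^ 3) := by ring
      have h0 : 0 ≤ (u - v) ^ 2 * (4 * u ^ 3 + 3 * u ^ 2 * v + 2 * u * v ^ 2 + v ^ 3) := by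
        positivity
      linarith
    have k3 : 3 * ((u - v) * u ^ 4) ≤ τ * ((u - v) ^ 2 * u ^ 3) + 9 / (4 * τ) * u ^ 5 := by
      have e : τ * ((u - v) ^ 2 * u ^ 3) + 9 / (4 * τ) * u ^ 5 - 3 * ((u - v) * u ^ 4) =
          u ^ 3 / τ * (τ * (u - v) - 3/2 * u) ^ 2 := by
        field_simp
        ring
      have h0 : 0 ≤ u ^ 3 / τ * (τ * (u - v) - 3/2 * u) ^ 2 := by positivity
      linarith
    have k4 := mul_le_mul_of_nonneg_left k1 hτ.le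
    have k5 : 0 ≤ 9 / (4 * τ) * v ^ 5 := by positivity
    rw [mul_add (9 / (4 * τ))]
    linarith

/-- the Lipschitz estimate -/
lemma kf_lip {γ1 γ2 : ℝ} (h1 : 0 < γ1) (h12 : γ1 ≤ γ2) {z : ι → ℝ} (hz : ∀ j, 0 ≤ z j)
    (R : ι → E3) : kf z R γ1 - kf z R γ2 ≤ 30 * kf z R γ1 * ((γ2 - γ1) / γ1) := by
  rcases eq_or_lt_of_le h12 with h | h
  · rw [← h]; simp
  have h2 : 0 < γ2 := h1.trans h
  have T1 := sol_spec h1 hz R
  have T2 := sol_spec h2 hz R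
  have hd : 0 < γ2 - γ1 := by linarith
  set s1 := sol z R γ1 with hs1
  set s2 := sol z R γ2 with hs2
  set τ : ℝ := γ1 / (2 * (γ2 - γ1)) with hτd
  have hτ : 0 < τ := by positivity
  have hb := two_breg h1 h12 hz R
  rw [← hs1, ← hs2] at hb
  set Q : ℝ := ∫ x, ((s1 x) ^ (2/3 : ℝ) - (s2 x) ^ (2/3 : ℝ)) * (s1 x - s2 x) with hQ
  have iQ : Integrable fun x => ((s1 x) ^ (2/3 : ℝ) - (s2 x) ^ (2/3 : ℝ)) * (s1 x - s2 x) := by
    have := (bg_int T1.md T2.md).add (bg_int T2.md T1.md)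
    refine this.congr (ae_of_all _ fun x => ?_)
    show bg (s1 x) (s2 x) + bg (s2 x) (s1 x) = _
    unfold bg; ring
  have iA : Integrable fun x => 3/5 * ((s1 x) ^ (5/3 : ℝ) - (s2 x) ^ (5/3 : ℝ)) :=
    (T1.md.int_pow.sub T2.md.int_pow).const_mul _
  have iB : Integrable fun x => 9 / (4 * τ) * ((s1 x) ^ (5/3 : ℝ) + (s2 x) ^ (5/3 : ℝ)) :=
    (T1.md.int_pow.add T2.md.int_pow).const_mul _
  have hI := integral_mono iA ((iQ.const_mul τ).add iB)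
    fun x => pt (T1.md.nonneg x) (T2.md.nonneg x) hτ
  have e1 : ∫ x, 3/5 * ((s1 x) ^ (5/3 : ℝ) - (s2 x) ^ (5/3 : ℝ)) = kf z R γ1 - kf z R γ2 := by
    rw [integral_const_mul, integral_sub T1.md.int_pow T2.md.int_pow]
    unfold kf; rw [← hs1, ← hs2]; ring
  have e2 : ∫ x, 9 / (4 * τ) * ((s1 x) ^ (5/3 : ℝ) + (s2 x) ^ (5/3 : ℝ)) =
      9 / (4 * τ) * (5/3 * (kf z R γ1 + kf z R γ2)) := by
    rw [integral_const_mul, integral_add T1.md.int_pow T2.md.int_pow]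
    unfold kf; rw [← hs1, ← hs2]; ring
  have e3 : ∫ x, (fun x => τ * (((s1 x) ^ (2/3 : ℝ) - (s2 x) ^ (2/3 : ℝ)) * (s1 x - s2 x))) x +
      (fun x => 9 / (4 * τ) * ((s1 x) ^ (5/3 : ℝ) + (s2 x) ^ (5/3 : ℝ))) x =
      τ * Q + 9 / (4 * τ) * (5/3 * (kf z R γ1 + kf z R γ2)) := by
    rw [integral_add (iQ.const_mul τ) iB, integral_const_mul, e2]
  rw [e1] at hI
  have hI' : kf z R γ1 - kf z R γ2 ≤ τ * Q + 9 / (4 * τ) * (5/3 * (kf z R γ1 + kf z R γ2)) := by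
    rw [← e3]; exact hI
  have hanti := kf_anti h1 h12 hz R
  have hQ' : τ * Q ≤ 1/2 * (kf z R γ1 - kf z R γ2) := by
    have e4 : τ * Q = 1 / (2 * (γ2 - γ1)) * (γ1 * Q) := by rw [hτd]; ring
    have e5 : 1/2 * (kf z R γ1 - kf z R γ2) =
        1 / (2 * (γ2 - γ1)) * ((γ2 - γ1) * (kf z R γ1 - kf z R γ2)) := by
      field_simp
    rw [e4, e5]
    exact mul_le_mul_of_nonneg_left hb (by positivity)
  have e6 : 9 / (4 * τ) = 9/2 * ((γ2 - γ1) / γ1) := by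
    rw [hτd]; field_simp; ring
  rw [e6] at hI'
  have hr : 0 ≤ (γ2 - γ1) / γ1 := by positivity
  nlinarith [mul_nonneg hr (sub_nonneg.2 hanti)]

end Pool.Agent.N288.TFD
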