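import Pool.Agent.N288.TFD1

/-!
# Neutral Thomas-Fermi theory: derivative in `γ`, charge scaling, dilation
-/

set_option autoImplicit false

namespace Pool.Agent.N288.TFD

open MeasureTheory Set Filter Topology Metric
open Pool.Agent.TH791.Cl Pool.Agent.TH791.Nw Pool.Agent.R999.Pot Pool.Agent.R999.MinP
open Pool.Agent.R999.Newton Pool.Agent.R999.Ex
open scoped ENNReal NNReal

variable {ι : Type*} [Fintype ι]

lemma kf_lipOn {a : ℝ} (ha : 0 < a) {z : ι → ℝ} (hz : ∀ j, 0 ≤ z j) (R : ι → E3) {x y : ℝ}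
    (hx : a ≤ x) (hy : a ≤ y) : |kf z R x - kf z R y| ≤ 30 * kf z R a / a * |x - y| := by
  wlog hxy : x ≤ y generalizing x y
  · have := this hy hx (le_of_not_ge hxy)
    rw [abs_sub_comm, abs_sub_comm x y]; exact this
  have hx0 : 0 < x := ha.trans_le hx
  have h1 := kf_anti hx0 hxy hz R
  have h2 := kf_lip hx0 hxy hz R
  have h3 := kf_anti ha hx hz R
  have h4 := kf_nonneg z R hx0 hz
  rw [abs_of_nonneg (sub_nonneg.2 h1), abs_of_nonpos (by linarith : x - y ≤ 0)]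
  refine h2.trans ?_
  have h5 : (y - x) / x ≤ (y - x) / a := div_le_div_of_nonneg_left (by linarith) ha hx
  have h6 : 0 ≤ (y - x) / a := div_nonneg (by linarith) ha.le
  have h7 : 0 ≤ (y - x) / x := div_nonneg (by linarith) hx0.le
  calc 30 * kf z R x * ((y - x) / x) ≤ 30 * kf z R a * ((y - x) / x) := by
        apply mul_le_mul_of_nonneg_right _ h7; linarith
    _ ≤ 30 * kf z R a * ((y - x) / a) := by
        apply mul_le_mul_of_nonneg_left h5; linarith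
    _ = 30 * kf z R a / a * -(x - y) := by ring

lemma kf_cont {γ : ℝ} (hγ : 0 < γ) {z : ι → ℝ} (hz : ∀ j, 0 ≤ z j) (R : ι → E3) :
    ContinuousAt (kf z R) γ := by
  have ha : 0 < γ / 2 := by positivity
  rw [Metric.continuousAt_iff]
  intro ε hε
  set L : ℝ := 30 * kf z R (γ/2) / (γ/2) with hL
  have hL0 : 0 ≤ L := by
    have := kf_nonneg z R ha hz
    positivity
  refine ⟨min (γ/2) (ε / (L + 1)), by positivity, fun x hx => ?_⟩
  rw [Real.dist_eq] at hx ⊢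
  have h1 : |x - γ| < γ / 2 := hx.trans_le (min_le_left _ _)
  have h2 : |x - γ| < ε / (L + 1) := hx.trans_le (min_le_right _ _)
  rw [abs_lt] at h1
  have h3 := kf_lipOn ha hz R (show γ/2 ≤ x by linarith) (show γ/2 ≤ γ by linarith)
  rw [← hL] at h3
  rw [lt_div_iff₀ (by positivity)] at h2
  have := abs_nonneg (x - γ)
  nlinarith

/-- Feynman-Hellmann -/
lemma ph_deriv {γ : ℝ} (hγ : 0 < γ) {z : ι → ℝ} (hz : ∀ j, 0 ≤ z j) (R : ι → E3) :
    HasDerivAt (ph z R) (kf z R γ) γ := by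
  rw [hasDerivAt_iff_isLittleO, Asymptotics.isLittleO_iff]
  intro c hc
  have h1 := Metric.continuousAt_iff.1 (kf_cont hγ hz R) c hc
  obtain ⟨δ, hδ, h⟩ := h1
  filter_upwards [Metric.ball_mem_nhds γ hδ, lt_mem_nhds hγ] with x hx hx0
  have h2 := h hx
  rw [Real.dist_eq] at h2
  have h3 := ph_super hγ hx0 hz R
  have h4 := ph_super hx0 hγ hz R
  rw [Real.norm_eq_abs, Real.norm_eq_abs, smul_eq_mul]
  have h5 : |ph z R x - ph z R γ - (x - γ) * kf z R γ| ≤ |kf z R x - kf z R γ| * |x - γ| := by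
    rw [← abs_mul, abs_le]
    constructor
    · have : (kf z R x - kf z R γ) * (x - γ) ≤ ph z R x - ph z R γ - (x - γ) * kf z R γ := by
        linarith
      have h6 := neg_abs_le ((kf z R x - kf z R γ) * (x - γ))
      linarith
    · have : ph z R x - ph z R γ - (x - γ) * kf z R γ ≤ 0 := by linarith
      exact this.trans (abs_nonneg _)
  exact h5.trans (mul_le_mul_of_nonneg_right h2.le (abs_nonneg _))

lemma Vn_mul (t : ℝ) (z : ι → ℝ) (R : ι → E3) (x : E3) :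
    Vn (fun j => t * z j) R x = t * Vn z R x := by
  unfold Vn
  rw [Finset.mul_sum]
  exact Finset.sum_congr rfl fun j _ => by ring

lemma MD.mul {t : ℝ} (ht : 0 ≤ t) {ρ : E3 → ℝ} (h : MD ρ) : MD (fun x => t * ρ x) :=
  Nice.md (nice_mul t h.nice) fun x => mul_nonneg ht (h.nonneg x)

lemma third {t : ℝ} (ht : 0 < t) : t ^ (1/3 : ℝ) * t ^ (2/3 : ℝ) = t := by
  rw [← Real.rpow_add ht]; norm_num

lemma third5 {t : ℝ} (ht : 0 < t) : t ^ (1/3 : ℝ) * t ^ (5/3 : ℝ) = t ^ 2 := by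
  rw [← Real.rpow_add ht, ← Real.rpow_natCast]; norm_num

/-- scaling of the charges -/
lemma tfs_scale {t γ : ℝ} (ht : 0 < t) {z : ι → ℝ} {R : ι → E3} {ρ : E3 → ℝ}
    (h : TFs γ z R ρ) : TFs (γ * t ^ (1/3 : ℝ)) (fun j => t * z j) R (fun x => t * ρ x) := by
  refine ⟨MD.mul ht.le h.md, ?_, fun x hx => ?_, ?_⟩
  · rw [integral_const_mul, h.mass, Finset.mul_sum]
  · rw [Vn_mul, pot_mul, ← mul_sub]
    exact mul_nonneg ht.le (h.phi_nonneg x fun j hj => hx j (mul_pos ht hj))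
  · filter_upwards [h.eq] with x hx
    rw [Vn_mul, pot_mul, ← mul_sub, ← hx, Real.mul_rpow ht.le (h.md.nonneg x)]
    have := third ht
    calc γ * t ^ (1/3 : ℝ) * (t ^ (2/3 : ℝ) * ρ x ^ (2/3 : ℝ)) =
        (t ^ (1/3 : ℝ) * t ^ (2/3 : ℝ)) * (γ * ρ x ^ (2/3 : ℝ)) := by ring
      _ = t * (γ * ρ x ^ (2/3 : ℝ)) := by rw [this]

lemma kf_scale {t γ : ℝ} (ht : 0 < t) (hγ : 0 < γ) {z : ι → ℝ} (hz : ∀ j, 0 ≤ z j) (R : ι → E3) :
    kf (fun j => t * z j) R (γ * t ^ (1/3 : ℝ)) = t ^ (5/3 : ℝ) * kf z R γ := by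
  have h := sol_spec hγ hz R
  rw [kf_eq (by positivity) (fun j => mul_nonneg ht.le (hz j)) (tfs_scale ht h)]
  unfold kf
  have : (fun x => (t * sol z R γ x) ^ (5/3 : ℝ)) =
      fun x => t ^ (5/3 : ℝ) * (sol z R γ x) ^ (5/3 : ℝ) := by
    funext x
    rw [Real.mul_rpow ht.le (h.md.nonneg x)]
  rw [this, integral_const_mul]; ring

lemma ph_scale {t γ : ℝ} (ht : 0 < t) (hγ : 0 < γ) {z : ι → ℝ} (hz : ∀ j, 0 ≤ z j) (R : ι → E3) :
    ph (fun j => t * z j) R (γ * t ^ (1/3 : ℝ)) = t ^ 2 * ph z R γ := by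
  have h := sol_spec hγ hz R
  rw [ph_eq (by positivity) (fun j => mul_nonneg ht.le (hz j)) (tfs_scale ht h)]
  unfold ph En
  have e1 : (fun x => (t * sol z R γ x) ^ (5/3 : ℝ)) =
      fun x => t ^ (5/3 : ℝ) * (sol z R γ x) ^ (5/3 : ℝ) := by
    funext x
    rw [Real.mul_rpow ht.le (h.md.nonneg x)]
  have e2 : ∑ j, t * z j * pot (fun x => t * sol z R γ x) (R j) =
      t ^ 2 * ∑ j, z j * pot (sol z R γ) (R j) := by
    rw [Finset.mul_sum]
    refine Finset.sum_congr rfl fun j _ => ?_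
    rw [pot_mul]; ring
  have e3 : ∫ x, t * sol z R γ x * pot (fun x => t * sol z R γ x) x =
      t ^ 2 * ∫ x, sol z R γ x * pot (sol z R γ) x := by
    rw [← integral_const_mul]
    congr 1; funext x
    rw [pot_mul]; ring
  rw [e1, integral_const_mul, e2, e3]
  have := third5 ht
  calc 3/5 * (γ * t ^ (1/3 : ℝ)) * (t ^ (5/3 : ℝ) * ∫ x, sol z R γ x ^ (5/3 : ℝ)) -
        t ^ 2 * (∑ j, z j * pot (sol z R γ) (R j)) +
        1/2 * (t ^ 2 * ∫ x, sol z R γ x * pot (sol z R γ) x) =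
      3/5 * γ * (t ^ (1/3 : ℝ) * t ^ (5/3 : ℝ)) * (∫ x, sol z R γ x ^ (5/3 : ℝ)) -
        t ^ 2 * (∑ j, z j * pot (sol z R γ) (R j)) +
        1/2 * (t ^ 2 * ∫ x, sol z R γ x * pot (sol z R γ) x) := by ring
    _ = _ := by rw [this]; ring

/-! dilation -/

lemma pot_dil {c : ℝ} (hc : 0 < c) (ρ : E3 → ℝ) (x : E3) :
    pot (fun y => c ^ 3 * ρ (c • y)) x = c * pot ρ (c • x) := by
  have h : ∀ y, c ^ 3 * ρ (c • y) / ‖x - y‖ = (fun u => c ^ 4 * (ρ u / ‖c • x - u‖)) (c • y) := by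
    intro y
    show _ = c ^ 4 * (ρ (c • y) / ‖c • x - c • y‖)
    rw [← smul_sub, norm_smul, Real.norm_of_nonneg hc.le]
    by_cases hxy : ‖x - y‖ = 0
    · simp [hxy]
    · field_simp
  unfold pot
  rw [show (fun y => c ^ 3 * ρ (c • y) / ‖x - y‖) =
    fun y => (fun u => c ^ 4 * (ρ u / ‖c • x - u‖)) (c • y) from funext h,
    Measure.integral_comp_smul volume (fun u => c ^ 4 * (ρ u / ‖c • x - u‖)) c,
    integral_const_mul, smul_eq_mul]
  have e : Module.finrank ℝ E3 = 3 := by simp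
  rw [e, abs_of_nonneg (by positivity)]
  field_simp

lemma int_dil {c : ℝ} (hc : 0 < c) (F : E3 → ℝ) : ∫ x, c ^ 3 * F (c • x) = ∫ x, F x := by
  rw [integral_const_mul, Measure.integral_comp_smul, smul_eq_mul]
  have e : Module.finrank ℝ E3 = 3 := by simp
  rw [e, abs_of_nonneg (by positivity)]
  field_simp

lemma Vn_dil {c : ℝ} (hc : 0 < c) (z : ι → ℝ) (R : ι → E3) (x : E3) :
    Vn z (fun j => c⁻¹ • R j) x = c * Vn z R (c • x) := by
  unfold Vn
  rw [Finset.mul_sum]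
  refine Finset.sum_congr rfl fun j _ => ?_
  have : c • x - R j = c • (x - c⁻¹ • R j) := by
    rw [smul_sub, smul_inv_smul₀ hc.ne']
  rw [this, norm_smul, Real.norm_of_nonneg hc.le]
  by_cases h : ‖x - c⁻¹ • R j‖ = 0
  · simp [h]
  · field_simp

lemma MD.dil {c : ℝ} (hc : 0 < c) {ρ : E3 → ℝ} (h : MD ρ) : MD (fun x => c ^ 3 * ρ (c • x)) := by
  refine MD.mul (by positivity) ⟨h.meas.comp (measurable_const_smul c), fun x => h.nonneg _, ?_, ?_⟩
  · exact h.int.comp_smul hc.ne'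
  · exact h.int_pow.comp_smul hc.ne'

lemma pow_dil {c : ℝ} (hc : 0 < c) (p : ℝ) : (c ^ 3) ^ (p/3 : ℝ) = c ^ p := by
  rw [← Real.rpow_natCast, ← Real.rpow_mul hc.le]
  congr 1
  push_cast; ring

lemma tfs_dil {c γ : ℝ} (hc : 0 < c) {z : ι → ℝ} {R : ι → E3} {ρ : E3 → ℝ} (h : TFs γ z R ρ) :
    TFs (γ / c) z (fun j => c⁻¹ • R j) (fun x => c ^ 3 * ρ (c • x)) := by
  refine ⟨MD.dil hc h.md, ?_, fun x hx => ?_, ?_⟩
  · rw [int_dil hc, h.mass]
  · rw [Vn_dil hc, pot_dil hc, ← mul_sub]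
    refine mul_nonneg hc.le (h.phi_nonneg _ fun j hj hx' => hx j hj ?_)
    rw [← hx', inv_smul_smul₀ hc.ne']
  · have hq : ∀ᵐ x, γ * ρ (c • x) ^ (2/3 : ℝ) = Vn z R (c • x) - pot ρ (c • x) := by
      have := (Measure.quasiMeasurePreserving_smul (volume : Measure E3) hc.ne').ae h.eq
      exact this
    filter_upwards [hq] with x hx
    rw [Vn_dil hc, pot_dil hc, ← mul_sub, ← hx, Real.mul_rpow (by positivity) (h.md.nonneg _),
      pow_dil hc 2]
    have : c ^ (2:ℝ) = c ^ 2 := by norm_num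
    rw [this]
    field_simp

lemma ph_dil {c γ : ℝ} (hc : 0 < c) (hγ : 0 < γ) {z : ι → ℝ} (hz : ∀ j, 0 ≤ z j) (R : ι → E3) :
    ph z (fun j => c⁻¹ • R j) (γ / c) = c * ph z R γ := by
  have h := sol_spec hγ hz R
  rw [ph_eq (by positivity) hz (tfs_dil hc h)]
  unfold ph En
  set ρ := sol z R γ with hρ
  have e1 : ∫ x, (c ^ 3 * ρ (c • x)) ^ (5/3 : ℝ) = c ^ 2 * ∫ x, ρ x ^ (5/3 : ℝ) := by
    have : (fun x => (c ^ 3 * ρ (c • x)) ^ (5/3 : ℝ)) =
        fun x => c ^ 3 * (fun u => c ^ 2 * ρ u ^ (5/3 : ℝ)) (c • x) := by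
      funext x
      show _ = c ^ 3 * (c ^ 2 * ρ (c • x) ^ (5/3 : ℝ))
      rw [Real.mul_rpow (by positivity) (h.md.nonneg _), pow_dil hc 5]
      have : c ^ (5:ℝ) = c ^ 5 := by norm_num
      rw [this]; ring
    rw [this, int_dil hc (fun u => c ^ 2 * ρ u ^ (5/3 : ℝ)), integral_const_mul]
  have e2 : ∑ j, z j * pot (fun x => c ^ 3 * ρ (c • x)) (c⁻¹ • R j) =
      c * ∑ j, z j * pot ρ (R j) := by
    rw [Finset.mul_sum]
    refine Finset.sum_congr rfl fun j _ => ?_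
    rw [pot_dil hc, smul_inv_smul₀ hc.ne']; ring
  have e3 : ∫ x, c ^ 3 * ρ (c • x) * pot (fun x => c ^ 3 * ρ (c • x)) x =
      c * ∫ x, ρ x * pot ρ x := by
    have : (fun x => c ^ 3 * ρ (c • x) * pot (fun x => c ^ 3 * ρ (c • x)) x) =
        fun x => c ^ 3 * (fun u => c * (ρ u * pot ρ u)) (c • x) := by
      funext x
      show _ = c ^ 3 * (c * (ρ (c • x) * pot ρ (c • x)))
      rw [pot_dil hc]; ring
    rw [this, int_dil hc (fun u => c * (ρ u * pot ρ u)), integral_const_mul]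
  rw [e1, e2, e3]
  field_simp

end Pool.Agent.N288.TFD
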