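import Pool.Agent.N288.TFD2

/-!
# The interaction energy of two equal neutral atoms as a function of `γ`
-/

set_option autoImplicit false

namespace Pool.Agent.N288.TFD

open MeasureTheory Set Filter Topology Metric
open Pool.Agent.TH791.Cl Pool.Agent.TH791.Nw Pool.Agent.R999.Pot Pool.Agent.R999.MinP
open Pool.Agent.R999.Newton Pool.Agent.R999.Ex
open scoped ENNReal NNReal

lemma A0_hom {γ : ℝ} : A0 γ = γ ^ 3 * A0 1 := by
  unfold A0; ring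

lemma Kc_hom {γ : ℝ} : Kc γ = γ ^ 3 * Kc 1 := by
  unfold Kc; rw [A0_hom]; ring

lemma cP1_hom {γ n : ℝ} : cP1 γ n = γ ^ 3 * cP1 1 n := by
  unfold cP1; rw [Kc_hom]; ring

lemma cP2_hom {γ n : ℝ} : cP2 γ n = γ ^ 3 * cP2 1 n := by
  unfold cP2; rw [Kc_hom]; ring

lemma pow32_hom {γ a : ℝ} (hγ : 0 < γ) (ha : 0 ≤ a) :
    (γ ^ 3 * a / γ) ^ (3/2 : ℝ) = γ ^ 3 * (a / 1) ^ (3/2 : ℝ) := by
  have e1 : γ ^ 3 * a / γ = γ ^ 2 * a := by field_simp
  rw [e1, Real.mul_rpow (by positivity) ha, div_one]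
  congr 1
  rw [← Real.rpow_natCast, ← Real.rpow_mul hγ.le, ← Real.rpow_natCast]
  norm_num

lemma cD1_hom {γ n : ℝ} (hγ : 0 < γ) (hn : 0 ≤ n) : cD1 γ n = γ ^ 3 * cD1 1 n := by
  unfold cD1; rw [cP1_hom, pow32_hom hγ (c_nonneg one_pos hn).1]

lemma cD2_hom {γ n : ℝ} (hγ : 0 < γ) (hn : 0 ≤ n) : cD2 γ n = γ ^ 3 * cD2 1 n := by
  unfold cD2; rw [cP2_hom, pow32_hom hγ (c_nonneg one_pos hn).2.2.2.2.1]

lemma Cup_hom {γ n m : ℝ} (hγ : 0 < γ) (hn : 0 ≤ n) (hm : 0 ≤ m) :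
    Cup γ n m = γ ^ 6 * Cup 1 n m := by
  unfold Cup cQ1 cW1 cQ2 cW2
  rw [cP1_hom, cP2_hom, cD1_hom hγ hn, cD2_hom hγ hm]
  ring

/-- the energy of the neutral atom of charge one -/
noncomputable def at1 (γ : ℝ) : ℝ := ph (fun _ : Fin 1 => (1:ℝ)) (fun _ => (0 : E3)) γ

lemma at1_eq {γ : ℝ} (hγ : 0 < γ) : at1 γ = at1 1 / γ := by
  have h := ph_dil (c := γ⁻¹) (γ := 1) (by positivity) one_pos
    (z := fun _ : Fin 1 => (1:ℝ)) (fun _ => zero_le_one) (fun _ => (0 : E3))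
  have e : (fun _ : Fin 1 => (γ⁻¹)⁻¹ • (0 : E3)) = fun _ => 0 := by simp
  rw [e] at h
  unfold at1
  rw [show (1:ℝ) / γ⁻¹ = γ by simp] at h
  rw [h]; field_simp

lemma FE_at {ι : Type*} [Fintype ι] [DecidableEq ι] {γ : ℝ} (hγ : 0 < γ) (R : ι → E3) (m : ι)
    {ρ : E3 → ℝ} (h : TFs γ (zS id (fun _ => (1:ℝ)) {m}) R ρ) :
    FE γ (zS id (fun _ => (1:ℝ)) {m}) R ρ = at1 γ := by
  have hsum : ∀ F : ι → ℝ, ∑ p, zS id (fun _ => (1:ℝ)) {m} p * F p = 1 * F m := by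
    intro F
    rw [Finset.sum_eq_single m]
    · simp [zS]
    · intro b _ hb; simp [zS, hb]
    · intro h; exact absurd (Finset.mem_univ m) h
  have T0 := sol_spec hγ (z := fun _ : Fin 1 => (1:ℝ)) (fun _ => zero_le_one) (fun _ => (0 : E3))
  have hV : ∀ x, Vn (zS id (fun _ => (1:ℝ)) {m}) R x =
      Vn (fun _ : Fin 1 => (1:ℝ)) (fun _ => (0:E3)) (x - R m) := by
    intro x
    have h1 := hsum (fun p => 1 / ‖x - R p‖)
    unfold Vn
    simp only [mul_one_div] at h1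
    rw [h1]
    simp
  have hm : ∑ p, zS id (fun _ => (1:ℝ)) {m} p = ∑ _j : Fin 1, (1:ℝ) := by
    have h1 := hsum (fun _ => 1)
    simpa using h1
  have T1 : TFs γ (zS id (fun _ => (1:ℝ)) {m}) R
      (fun x => sol (fun _ : Fin 1 => (1:ℝ)) (fun _ => (0 : E3)) γ (x - R m)) := by
    refine T0.shift hV hm fun x hx j hj => ?_
    have h1 := hx m (by simp [zS])
    rw [sub_ne_zero]; exact h1
  rw [h.en_eq hγ T1]
  unfold FE
  rw [En_shift T0.md hV]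
  have hU : UU (zS id (fun _ => (1:ℝ)) {m}) R = 0 := by
    unfold UU
    have e1 : ∀ p, ∑ q, zS id (fun _ => (1:ℝ)) {m} p * zS id (fun _ => (1:ℝ)) {m} q / ‖R p - R q‖ =
        zS id (fun _ => (1:ℝ)) {m} p * (1 * (1 / ‖R p - R m‖)) := by
      intro p
      rw [← hsum (fun q => 1 / ‖R p - R q‖), Finset.mul_sum]
      exact Finset.sum_congr rfl fun q _ => by ring
    rw [Finset.sum_congr rfl fun p _ => e1 p, hsum]
    simp
  rw [hU, add_zero]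
  rfl

/-- charges and positions of the diatomic molecule -/
noncomputable def R2 (q : E3) : Fin 2 → E3 := ![0, q]

lemma UU2 {q : E3} (hq : ‖q‖ = 1) : UU (fun _ : Fin 2 => (1:ℝ)) (R2 q) = 1 := by
  unfold UU R2
  simp [Fin.sum_univ_two, hq]
  norm_num

/-- the diatomic energy without repulsion -/
noncomputable def gg (q : E3) (γ : ℝ) : ℝ := ph (fun _ : Fin 2 => (1:ℝ)) (R2 q) γ

/-- the interaction energy -/
noncomputable def DD (q : E3) (γ : ℝ) : ℝ := gg q γ + 1 - 2 * at1 γ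

lemma R2_sep {q : E3} (hq : ‖q‖ = 1) {i j : Fin 2} (hij : i ≠ j) : ‖R2 q i - R2 q j‖ = 1 := by
  unfold R2
  fin_cases i <;> fin_cases j <;> simp_all

lemma DD_le {q : E3} (hq : ‖q‖ = 1) {γ : ℝ} (hγ : 0 < γ) :
    DD q γ ≤ 2 * (Cup 1 2 2 * 8 ^ 7) * γ ^ 6 := by
  have hz : ∀ j : Fin 2, 0 ≤ (fun _ : Fin 2 => (1:ℝ)) j := fun _ => zero_le_one
  have T := fun S : Finset (Fin 2) => sol_spec hγ (zS_nonneg (col := id) hz S) (R2 q)
  have h := all_up hγ hz T (Y := R2 q) (s := 1/8) (by norm_num)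
    (fun p m _ hpm => by
      have := R2_sep hq (i := p) (j := m) hpm
      rw [this]; norm_num) (fun p _ => by simp; norm_num) Finset.univ
  rw [Finset.sum_congr rfl fun m _ => FE_at hγ (R2 q) m (T {m})] at h
  have e0 : zS id (fun _ : Fin 2 => (1:ℝ)) Finset.univ = fun _ => 1 := by funext p; simp [zS]
  rw [e0] at h
  simp only [Finset.sum_const, Finset.card_univ, Fintype.card_fin, nsmul_eq_mul] at h
  unfold FE at h
  rw [UU2 hq] at h
  push_cast at h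
  rw [Cup_hom hγ (by norm_num) (by norm_num)] at h
  unfold DD gg ph
  have e1 : γ ^ 6 * Cup 1 2 2 / (1/8) ^ 7 = Cup 1 2 2 * 8 ^ 7 * γ ^ 6 := by ring
  rw [e1] at h
  linarith

lemma DD_lo {q : E3} (hq : ‖q‖ = 1) {γ : ℝ} (hγ : 0 < γ) :
    2/5 * γ * (∫ x, (min (sol (zS id (fun _ : Fin 2 => (1:ℝ)) {0}) (R2 q) γ x)
      (sol (zS id (fun _ : Fin 2 => (1:ℝ)) {1}) (R2 q) γ x)) ^ (5/3 : ℝ)) ≤ DD q γ := by
  have hz : ∀ j : Fin 2, 0 ≤ (fun _ : Fin 2 => (1:ℝ)) j := fun _ => zero_le_one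
  have T := fun S : Finset (Fin 2) => sol_spec hγ (zS_nonneg (col := id) hz S) (R2 q)
  have hR : ∀ p r : Fin 2, 0 < (fun _ : Fin 2 => (1:ℝ)) p → 0 < (fun _ : Fin 2 => (1:ℝ)) r →
      id p ≠ id r → R2 q p ≠ R2 q r := by
    intro p r _ _ hpr h
    have := R2_sep hq (i := p) (j := r) hpr
    rw [h, sub_self, norm_zero] at this
    exact zero_ne_one this
  have h := all_lo hγ hz hR T (a := 0) (b := 1) (by simp) ∅ (by simp) (by simp)
  have e1 : insert (0 : Fin 2) (insert (1 : Fin 2) (∅ : Finset (Fin 2))) = Finset.univ := by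
    ext x; fin_cases x <;> simp
  rw [e1, Finset.sum_congr rfl fun m _ => FE_at hγ (R2 q) m (T {m})] at h
  have e0 : zS id (fun _ : Fin 2 => (1:ℝ)) Finset.univ = fun _ => 1 := by funext p; simp [zS]
  rw [e0] at h
  simp only [Finset.sum_const, Finset.card_univ, Fintype.card_fin, nsmul_eq_mul] at h
  unfold FE at h
  rw [UU2 hq] at h
  push_cast at h
  unfold DD gg ph
  linarith

lemma DD_nonneg {q : E3} (hq : ‖q‖ = 1) {γ : ℝ} (hγ : 0 < γ) : 0 ≤ DD q γ := by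
  refine le_trans ?_ (DD_lo hq hγ)
  have h1 := gain_nonneg (sol_spec hγ (zS_nonneg (col := id)
    (z := fun _ : Fin 2 => (1:ℝ)) (fun _ => zero_le_one) {0}) (R2 q)).md
    (sol_spec hγ (zS_nonneg (col := id)
    (z := fun _ : Fin 2 => (1:ℝ)) (fun _ => zero_le_one) {1}) (R2 q)).md
  positivity

lemma DD_pos {q : E3} (hq : ‖q‖ = 1) : 0 < DD q 1 := by
  have hz : ∀ j : Fin 2, 0 ≤ (fun _ : Fin 2 => (1:ℝ)) j := fun _ => zero_le_one
  have T := fun S : Finset (Fin 2) => sol_spec one_pos (zS_nonneg (col := id) hz S) (R2 q)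
  have h1 := DD_lo hq one_pos
  obtain ⟨ci, hci, Li⟩ := (T {0}).dens_ge one_pos (zS_nonneg (col := id) hz _) (j0 := 0)
    (by simp [zS])
  obtain ⟨cj, hcj, Lj⟩ := (T {1}).dens_ge one_pos (zS_nonneg (col := id) hz _) (j0 := 1)
    (by simp [zS])
  obtain ⟨P, hP⟩ : ∃ P : E3, ‖P‖ = 4 := exists_norm_eq E3 (by positivity)
  set B : ℝ := 6 with hB
  have hB0 : 0 < B := by norm_num
  set K : ℝ := min ci cj / B ^ 6 with hK
  have hK0 : 0 < K := by positivity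
  have gen : ∀ (a : E3) (c : ℝ) (g : E3 → ℝ), ‖a‖ ≤ 1 → 0 < c → min ci cj ≤ c →
      (∀ᵐ x, 1 ≤ ‖x - a‖ → c / ‖x - a‖ ^ 6 ≤ g x) → ∀ᵐ x, x ∈ ball P 1 → K / 1 ^ 6 ≤ g x := by
    intro a c g ha hc hmin hL
    filter_upwards [hL] with x hx hxb
    rw [mem_ball, dist_eq_norm] at hxb
    have n1 : ‖P‖ ≤ ‖x - a‖ + ‖x - P‖ + ‖a‖ := by
      have e : P = (x - a) - (x - P) + a := by abel
      calc ‖P‖ = ‖(x - a) - (x - P) + a‖ := by rw [← e]
        _ ≤ ‖(x - a) - (x - P)‖ + ‖a‖ := norm_add_le _ _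
        _ ≤ _ := by linarith [norm_sub_le (x - a) (x - P)]
    have n2 : ‖x - a‖ ≤ ‖x - P‖ + ‖P‖ + ‖a‖ := by
      have e : x - a = (x - P) + P - a := by abel
      calc ‖x - a‖ = ‖(x - P) + P - a‖ := by rw [← e]
        _ ≤ ‖(x - P) + P‖ + ‖a‖ := norm_sub_le _ _
        _ ≤ _ := by linarith [norm_add_le (x - P) P]
    have n3 : 1 ≤ ‖x - a‖ := by linarith
    have n4 : ‖x - a‖ ≤ B := by rw [hB]; linarith
    have n5 : 0 < ‖x - a‖ := by linarith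
    refine le_trans ?_ (hx n3)
    rw [one_pow, div_one, hK]
    have n6 : ‖x - a‖ ^ 6 ≤ B ^ 6 := pow_le_pow_left₀ n5.le n4 6
    exact div_le_div₀ hc.le hmin (by positivity) n6
  have r0 : ‖R2 q 0‖ ≤ 1 := by simp [R2]
  have r1 : ‖R2 q 1‖ ≤ 1 := by simp [R2, hq]
  have g1 := gen (R2 q 0) ci _ r0 hci (min_le_left _ _) Li
  have g2 := gen (R2 q 1) cj _ r1 hcj (min_le_right _ _) Lj
  have h5 := gain_lo (T {0}).md (T {1}).md one_pos hK0 P g1 g2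
  have hpi := Real.pi_pos
  have h6 : 0 < 4/3 * Real.pi * K ^ (5/3 : ℝ) / 1 ^ 7 := by positivity
  linarith

end Pool.Agent.N288.TFD
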