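import Pool.Agent.N288.TFD3

/-!
# The coalescence argument
-/

set_option autoImplicit false

namespace Pool.Agent.N288.TFD

open MeasureTheory Set Filter Topology Metric
open Pool.Agent.TH791.Cl Pool.Agent.TH791.Nw Pool.Agent.R999.Pot Pool.Agent.R999.MinP
open Pool.Agent.R999.Newton Pool.Agent.R999.Ex
open scoped ENNReal NNReal

lemma kf_ac {ι : Type*} [Fintype ι] {a b : ℝ} (ha : 0 < a) (hab : a ≤ b) {z : ι → ℝ}
    (hz : ∀ j, 0 ≤ z j) (R : ι → E3) : AbsolutelyContinuousOnInterval (kf z R) a b := by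
  have hK : 0 ≤ 30 * kf z R a / a := by
    have := kf_nonneg z R ha hz
    positivity
  refine LipschitzOnWith.absolutelyContinuousOnInterval (K := ⟨30 * kf z R a / a, hK⟩) ?_
  rw [uIcc_of_le hab]
  refine LipschitzOnWith.of_dist_le_mul fun x hx y hy => ?_
  rw [Real.dist_eq, Real.dist_eq]
  exact kf_lipOn ha hz R hx.1 hy.1

lemma sq_ac {a b : ℝ} : AbsolutelyContinuousOnInterval (fun x : ℝ => x ^ 2) a b :=
  ContDiffOn.absolutelyContinuousOnInterval (by fun_prop)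

section mono

variable {ι : Type*} [Fintype ι] {zA zB zC : ι → ℝ} {R : ι → E3}

/-- the function `γ² (K_C - K_A - K_B)` -/
noncomputable def HH (zA zB zC : ι → ℝ) (R : ι → E3) (γ : ℝ) : ℝ :=
  γ ^ 2 * (kf zC R γ - kf zA R γ - kf zB R γ)

/-- no counterexample along the rays -/
def NoC (zA zB zC : ι → ℝ) (R : ι → E3) : Prop :=
  ∀ γ : ℝ, 0 < γ → ∀ dA dB dC : ℝ, HasDerivAt (kf zA R) dA γ → HasDerivAt (kf zB R) dB γ →
    HasDerivAt (kf zC R) dC γ →
    (2 * γ * kf zA R γ + γ ^ 2 * dA) + (2 * γ * kf zB R γ + γ ^ 2 * dB) ≤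
      2 * γ * kf zC R γ + γ ^ 2 * dC

lemma HH_mono (hA : ∀ j, 0 ≤ zA j) (hB : ∀ j, 0 ≤ zB j) (hC : ∀ j, 0 ≤ zC j)
    (h : NoC zA zB zC R) {a b : ℝ} (ha : 0 < a) (hab : a ≤ b) :
    HH zA zB zC R a ≤ HH zA zB zC R b := by
  have cA := kf_ac ha hab hA R
  have cB := kf_ac ha hab hB R
  have cC := kf_ac ha hab hC R
  have hac : AbsolutelyContinuousOnInterval (HH zA zB zC R) a b := by
    have := (sq_ac (a := a) (b := b)).mul ((cC.sub cA).sub cB)
    exact this
  have h1 := hac.integral_deriv_eq_sub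
  have h2 : 0 ≤ ∫ x in a..b, deriv (HH zA zB zC R) x := by
    refine intervalIntegral.integral_nonneg_of_ae_restrict hab ?_
    rw [EventuallyLE, ae_restrict_iff' measurableSet_Icc]
    filter_upwards [cA.ae_differentiableAt, cB.ae_differentiableAt, cC.ae_differentiableAt]
      with x xA xB xC hx
    rw [uIcc_of_le hab] at xA xB xC
    have x0 : 0 < x := ha.trans_le hx.1
    have dA := (xA hx).hasDerivAt
    have dB := (xB hx).hasDerivAt
    have dC := (xC hx).hasDerivAt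
    have h3 := h x x0 _ _ _ dA dB dC
    have h4 : HasDerivAt (HH zA zB zC R) (2 * x * (kf zC R x - kf zA R x - kf zB R x) +
        x ^ 2 * (deriv (kf zC R) x - deriv (kf zA R) x - deriv (kf zB R) x)) x := by
      have h5 := (hasDerivAt_pow 2 x).mul ((dC.sub dA).sub dB)
      refine HasDerivAt.congr_deriv h5 ?_
      simp
    rw [h4.deriv]
    show (0:ℝ) ≤ _
    linarith
  linarith

/-- the function `h` -/
noncomputable def hh (zA zB zC : ι → ℝ) (R : ι → E3) (s : ℝ) : ℝ :=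
  ph zC R (1 / s) - ph zA R (1 / s) - ph zB R (1 / s)

lemma hh_deriv (hA : ∀ j, 0 ≤ zA j) (hB : ∀ j, 0 ≤ zB j) (hC : ∀ j, 0 ≤ zC j) {s : ℝ}
    (hs : 0 < s) : HasDerivAt (hh zA zB zC R) (-HH zA zB zC R (1 / s)) s := by
  have hs' : 0 < 1 / s := by positivity
  have e : HasDerivAt (fun s : ℝ => 1 / s) (-(1 / s ^ 2)) s := by
    simpa using (hasDerivAt_inv hs.ne')
  have d1 := (ph_deriv hs' hC R).comp s e
  have d2 := (ph_deriv hs' hA R).comp s e
  have d3 := (ph_deriv hs' hB R).comp s e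
  have := (d1.sub d2).sub d3
  refine HasDerivAt.congr_deriv this ?_
  unfold HH
  ring

lemma hh_mid (hA : ∀ j, 0 ≤ zA j) (hB : ∀ j, 0 ≤ zB j) (hC : ∀ j, 0 ≤ zC j)
    (h : NoC zA zB zC R) {s L : ℝ} (hs : 0 < s) (hL : 0 < L) :
    2 * hh zA zB zC R (s + L) ≤ hh zA zB zC R s + hh zA zB zC R (s + 2 * L) := by
  have hconv : ConvexOn ℝ (Ioi 0) (hh zA zB zC R) := by
    refine MonotoneOn.convexOn_of_deriv (convex_Ioi 0) ?_ ?_ ?_
    · exact fun x hx => (hh_deriv hA hB hC hx).continuousAt.continuousWithinAt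
    · rw [interior_Ioi]
      exact fun x hx => (hh_deriv hA hB hC hx).differentiableAt.differentiableWithinAt
    · rw [interior_Ioi]
      intro x hx y hy hxy
      rw [(hh_deriv hA hB hC hx).deriv, (hh_deriv hA hB hC hy).deriv]
      have hy0 : 0 < y := hy
      have h1 : 1 / y ≤ 1 / x := one_div_le_one_div_of_le hx hxy
      have := HH_mono hA hB hC h (show 0 < 1 / y by positivity) h1
      linarith
  have h1 := hconv.2 (show s ∈ Ioi (0:ℝ) from hs)
    (show s + 2 * L ∈ Ioi (0:ℝ) from (by positivity : 0 < s + 2 * L))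
    (by norm_num : (0:ℝ) ≤ 1/2) (by norm_num : (0:ℝ) ≤ 1/2) (by norm_num)
  have e : (1/2 : ℝ) • s + (1/2 : ℝ) • (s + 2 * L) = s + L := by
    simp only [smul_eq_mul]; ring
  rw [e] at h1
  simp only [smul_eq_mul] at h1
  linarith

end mono

/-- positions -/
noncomputable def R4 (ε : ℝ) (q : E3) : Fin 4 → E3 := ![0, q, ε • q, (1 + ε) • q]

noncomputable def R2' (ε : ℝ) (q : E3) : Fin 2 → E3 := ![ε • q, (1 + ε) • q]

def zA : Fin 4 → ℝ := ![1, 1, 0, 0]
def zB : Fin 4 → ℝ := ![0, 0, 1, 1]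
def zC : Fin 4 → ℝ := fun _ => 1

lemma zA_nonneg : ∀ j, 0 ≤ zA j := by intro j; unfold zA; fin_cases j <;> simp
lemma zB_nonneg : ∀ j, 0 ≤ zB j := by intro j; unfold zB; fin_cases j <;> simp
lemma zC_nonneg : ∀ j, 0 ≤ zC j := fun _ => zero_le_one

lemma shift_ph {ι ι' : Type*} [Fintype ι] [Fintype ι'] {γ : ℝ} (hγ : 0 < γ) {z : ι → ℝ}
    (hz : ∀ j, 0 ≤ z j) {R : ι → E3} {z' : ι' → ℝ} (hz' : ∀ j, 0 ≤ z' j)
    {R' : ι' → E3} {a : E3} (hV : ∀ x, Vn z' R' x = Vn z R (x - a))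
    (hm : ∑ j, z' j = ∑ j, z j)
    (hx : ∀ x, (∀ j, 0 < z' j → x ≠ R' j) → ∀ j, 0 < z j → x - a ≠ R j) :
    ph z' R' γ = ph z R γ := by
  have T := sol_spec hγ hz R
  rw [ph_eq hγ hz' (T.shift hV hm hx), En_shift T.md hV]
  rfl

lemma phA {γ : ℝ} (hγ : 0 < γ) (ε : ℝ) (q : E3) : ph zA (R4 ε q) γ = gg q γ := by
  unfold gg
  refine shift_ph hγ (fun _ => zero_le_one) zA_nonneg (a := 0) ?_ ?_ ?_
  · intro x
    simp [Vn, zA, R4, R2, Fin.sum_univ_four, Fin.sum_univ_two]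
  · simp [zA, Fin.sum_univ_four]
    norm_num
  · intro x h j _
    rw [sub_zero]
    fin_cases j
    · have := h 0 (by simp [zA]); simpa [R4, R2] using this
    · have := h 1 (by simp [zA]); simpa [R4, R2] using this

lemma phB {γ : ℝ} (hγ : 0 < γ) (ε : ℝ) (q : E3) : ph zB (R4 ε q) γ = gg q γ := by
  unfold gg
  refine shift_ph hγ (fun _ => zero_le_one) zB_nonneg (a := ε • q) ?_ ?_ ?_
  · intro x
    have e : x - (1 + ε) • q = x - ε • q - q := by rw [add_smul, one_smul]; abel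
    simp [Vn, zB, R4, R2, Fin.sum_univ_four, Fin.sum_univ_two, e]
  · simp [zB, Fin.sum_univ_four]
    norm_num
  · intro x h j _
    fin_cases j
    · have := h 2 (by simp [zB])
      simp [R4, R2] at this ⊢
      rwa [sub_eq_zero]
    · have := h 3 (by simp [zB])
      simp [R4, R2] at this ⊢
      intro h2
      apply this
      rw [add_smul, one_smul]; exact sub_eq_iff_eq_add.1 h2

lemma En_avg (γ ε : ℝ) (q : E3) (ρ : E3 → ℝ) :
    En γ zC (R4 ε q) ρ = 1/2 * (En γ (fun _ : Fin 2 => 2) (R2 q) ρ +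
      En γ (fun _ : Fin 2 => 2) (R2' ε q) ρ) := by
  unfold En
  simp [zC, R4, R2, R2', Fin.sum_univ_four, Fin.sum_univ_two]
  ring

lemma ph2' {γ : ℝ} (hγ : 0 < γ) (ε : ℝ) (q : E3) :
    ph (fun _ : Fin 2 => (2:ℝ)) (R2' ε q) γ = ph (fun _ : Fin 2 => (2:ℝ)) (R2 q) γ := by
  refine shift_ph hγ (fun _ => zero_le_two) (fun _ => zero_le_two) (a := ε • q) ?_ rfl ?_
  · intro x
    have e : x - (1 + ε) • q = x - ε • q - q := by rw [add_smul, one_smul]; abel
    simp [Vn, R2', R2, Fin.sum_univ_two, e]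
  · intro x h j _
    fin_cases j
    · have := h 0 (by simp)
      simp [R2', R2] at this ⊢
      rwa [sub_eq_zero]
    · have := h 1 (by simp)
      simp [R2', R2] at this ⊢
      intro h2
      apply this
      rw [add_smul, one_smul]; exact sub_eq_iff_eq_add.1 h2

lemma phC_ge {γ : ℝ} (hγ : 0 < γ) (ε : ℝ) (q : E3) :
    ph (fun _ : Fin 2 => (2:ℝ)) (R2 q) γ ≤ ph zC (R4 ε q) γ := by
  have T := sol_spec hγ zC_nonneg (R4 ε q)
  have h1 := ph_le hγ (z := fun _ : Fin 2 => (2:ℝ)) (fun _ => zero_le_two) (R := R2 q) T.md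
  have h2 := ph_le hγ (z := fun _ : Fin 2 => (2:ℝ)) (fun _ => zero_le_two) (R := R2' ε q) T.md
  rw [ph2' hγ] at h2
  unfold ph at h1 h2 ⊢
  rw [En_avg]
  linarith

lemma phC_le {γ : ℝ} (hγ : 0 < γ) (ε : ℝ) (q : E3) :
    ph zC (R4 ε q) γ ≤ ph (fun _ : Fin 2 => (2:ℝ)) (R2 q) γ +
      ((pot (sol (fun _ : Fin 2 => (2:ℝ)) (R2 q) γ) 0 -
        pot (sol (fun _ : Fin 2 => (2:ℝ)) (R2 q) γ) (ε • q)) +
      (pot (sol (fun _ : Fin 2 => (2:ℝ)) (R2 q) γ) q -
        pot (sol (fun _ : Fin 2 => (2:ℝ)) (R2 q) γ) ((1 + ε) • q))) := by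
  have T := sol_spec hγ (z := fun _ : Fin 2 => (2:ℝ)) (fun _ => zero_le_two) (R2 q)
  have h1 := ph_le hγ zC_nonneg (R := R4 ε q) T.md
  refine h1.trans (le_of_eq ?_)
  rw [En_avg]
  unfold ph En
  simp [R2, R2', Fin.sum_univ_two]
  ring

lemma phC_lim {γ : ℝ} (hγ : 0 < γ) (q : E3) :
    Tendsto (fun ε : ℝ => ph zC (R4 ε q) γ) (𝓝 0) (𝓝 (ph (fun _ : Fin 2 => (2:ℝ)) (R2 q) γ)) := by
  have T := sol_spec hγ (z := fun _ : Fin 2 => (2:ℝ)) (fun _ => zero_le_two) (R2 q)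
  have hc := pot_cont T.md.nice
  set P := pot (sol (fun _ : Fin 2 => (2:ℝ)) (R2 q) γ) with hP
  have hF : Continuous fun ε : ℝ => ph (fun _ : Fin 2 => (2:ℝ)) (R2 q) γ +
      ((P 0 - P (ε • q)) + (P q - P ((1 + ε) • q))) := by
    have c1 : Continuous fun ε : ℝ => P (ε • q) := hc.comp (by fun_prop)
    have c2 : Continuous fun ε : ℝ => P ((1 + ε) • q) := hc.comp (by fun_prop)
    fun_prop
  have h2 := hF.tendsto 0
  simp only [zero_smul, sub_self, add_zero, one_smul] at h2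
  refine tendsto_of_tendsto_of_tendsto_of_le_of_le tendsto_const_nhds h2 ?_ ?_
  · exact fun ε => phC_ge hγ ε q
  · exact fun ε => phC_le hγ ε q

/-- the cube root of two -/
noncomputable def c2 : ℝ := (2:ℝ) ^ (1/3 : ℝ)

lemma c2_pos : 0 < c2 := by unfold c2; positivity

lemma c2_one_lt : 1 < c2 := Real.one_lt_rpow (by norm_num) (by norm_num)

lemma c2_cube : c2 ^ 3 = 2 := by
  unfold c2
  rw [← Real.rpow_natCast, ← Real.rpow_mul (by norm_num)]
  norm_num

lemma ph_two {γ : ℝ} (hγ : 0 < γ) (q : E3) :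
    ph (fun _ : Fin 2 => (2:ℝ)) (R2 q) γ = 4 * gg q (γ / c2) := by
  have h := ph_scale (t := 2) (γ := γ / c2) two_pos (by have := c2_pos; positivity)
    (z := fun _ : Fin 2 => (1:ℝ)) (fun _ => zero_le_one) (R2 q)
  have e : γ / c2 * 2 ^ (1/3 : ℝ) = γ := by
    change γ / c2 * c2 = γ
    have := c2_pos
    field_simp
  rw [e] at h
  simp only [mul_one] at h
  rw [h]; unfold gg; norm_num

/-- the limit inequality -/
lemma lim_mid {q : E3} {δ : ℝ} (hδ : 0 < δ)
    (h : ∀ ε : ℝ, 0 < ε → ε < δ → NoC zA zB zC (R4 ε q)) {s L : ℝ} (hs : 0 < s) (hL : 0 < L) :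
    2 * (4 * gg q (1 / (s + L) / c2) - 2 * gg q (1 / (s + L))) ≤
      (4 * gg q (1 / s / c2) - 2 * gg q (1 / s)) +
      (4 * gg q (1 / (s + 2 * L) / c2) - 2 * gg q (1 / (s + 2 * L))) := by
  have lim : ∀ s : ℝ, 0 < s → Tendsto (fun ε : ℝ => hh zA zB zC (R4 ε q) s) (𝓝[>] 0)
      (𝓝 (4 * gg q (1 / s / c2) - 2 * gg q (1 / s))) := by
    intro s hs
    have hs' : 0 < 1 / s := by positivity
    have h1 := (phC_lim hs' q).mono_left (nhdsWithin_le_nhds (s := Ioi (0:ℝ)))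
    rw [ph_two hs'] at h1
    have h2 := (h1.sub_const (gg q (1/s))).sub_const (gg q (1/s))
    have e : (fun ε : ℝ => hh zA zB zC (R4 ε q) s) =
        fun ε => ph zC (R4 ε q) (1 / s) - gg q (1/s) - gg q (1/s) := by
      funext ε
      unfold hh
      rw [phA hs', phB hs']
    rw [e]
    have e2 : 4 * gg q (1 / s / c2) - 2 * gg q (1 / s) =
        4 * gg q (1 / s / c2) - gg q (1 / s) - gg q (1 / s) := by ring
    rw [e2]; exact h2
  refine le_of_tendsto_of_tendsto ((lim (s + L) (by positivity)).const_mul 2)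
    ((lim s hs).add (lim (s + 2 * L) (by positivity))) ?_
  have hev : ∀ᶠ ε : ℝ in 𝓝[>] 0, 0 < ε ∧ ε < δ := by
    filter_upwards [self_mem_nhdsWithin, nhdsWithin_le_nhds (Iio_mem_nhds hδ)] with ε a b
    exact ⟨a, b⟩
  filter_upwards [hev] with ε hε
  exact hh_mid zA_nonneg zB_nonneg zC_nonneg (h ε hε.1 hε.2) hs hL

/-- **contradiction** -/
theorem exists_ce {q : E3} (hq : ‖q‖ = 1) {δ : ℝ} (hδ : 0 < δ) :
    ∃ ε : ℝ, 0 < ε ∧ ε < δ ∧ ¬ NoC zA zB zC (R4 ε q) := by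
  by_contra hcon
  push Not at hcon
  have hc := c2_pos
  have hc1 := c2_one_lt
  set C : ℝ := 2 * (Cup 1 2 2 * 8 ^ 7) with hC
  have hle : ∀ γ : ℝ, 0 < γ → DD q γ ≤ C * γ ^ 6 := fun γ hγ => DD_le hq hγ
  have hge : ∀ γ : ℝ, 0 < γ → 0 ≤ DD q γ := fun γ hγ => DD_nonneg hq hγ
  have hC0 : 0 ≤ C := by
    have h1 := hle 1 one_pos
    have h2 := hge 1 one_pos
    rw [one_pow, mul_one] at h1
    linarith
  have hgg : ∀ s : ℝ, 0 < s → gg q (1 / s) = DD q (1 / s) - 1 + 2 * (at1 1 * s) := by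
    intro s hs
    unfold DD
    rw [at1_eq (show 0 < 1 / s by positivity)]
    field_simp
    ring
  have hgg2 : ∀ s : ℝ, 0 < s → gg q (1 / s / c2) = DD q (1 / (c2 * s)) - 1 +
      2 * (at1 1 * (c2 * s)) := by
    intro s hs
    have e : 1 / s / c2 = 1 / (c2 * s) := by field_simp
    rw [e, hgg _ (by positivity)]
  -- the key inequality
  have key : ∀ s L : ℝ, 0 < s → 0 < L → 0 ≤ 4 * DD q (1 / (c2 * s)) - 2 * DD q (1 / s) +
      (4 * DD q (1 / (c2 * (s + 2 * L))) + 4 * DD q (1 / (s + L))) := by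
    intro s L hs hL
    have h1 := lim_mid hδ hcon hs hL
    have hs1 : 0 < s + L := by positivity
    have hs2 : 0 < s + 2 * L := by positivity
    rw [hgg _ hs, hgg _ hs1, hgg _ hs2, hgg2 _ hs, hgg2 _ hs1, hgg2 _ hs2] at h1
    have p1 := hge (1 / (c2 * (s + L))) (by positivity)
    have p2 := hge (1 / (s + 2 * L)) (by positivity)
    have e1 : ∀ a b : ℝ, a * (c2 * (s + L)) = a * c2 * s + a * c2 * L := fun a _ => by ring
    nlinarith
  have lim0 : ∀ s : ℝ, 0 < s → Tendsto (fun L : ℝ => 4 * DD q (1 / (c2 * (s + 2 * L))) +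
      4 * DD q (1 / (s + L))) atTop (𝓝 0) := by
    intro s hs
    have hinv : Tendsto (fun L : ℝ => 8 * C * (1 / L) ^ 6) atTop (𝓝 0) := by
      have h1 : Tendsto (fun L : ℝ => 1 / L) atTop (𝓝 0) := by
        simpa using tendsto_inv_atTop_zero
      have h2 := (h1.pow 6).const_mul (8 * C)
      simpa using h2
    refine squeeze_zero' ?_ ?_ hinv
    · filter_upwards [eventually_gt_atTop 0] with L hL
      have p1 := hge (1 / (c2 * (s + 2 * L))) (by positivity)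
      have p2 := hge (1 / (s + L)) (by positivity)
      positivity
    · filter_upwards [eventually_gt_atTop 0] with L hL
      have gen : ∀ w : ℝ, L ≤ w → DD q (1 / w) ≤ C * (1 / L) ^ 6 := by
        intro w hw
        have hw0 : 0 < w := hL.trans_le hw
        refine (hle _ (by positivity)).trans ?_
        refine mul_le_mul_of_nonneg_left ?_ hC0
        exact pow_le_pow_left₀ (by positivity) (one_div_le_one_div_of_le hL hw) 6
      have g1 := gen (c2 * (s + 2 * L)) (by nlinarith)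
      have g2 := gen (s + L) (by linarith)
      linarith
  have step : ∀ s : ℝ, 0 < s → DD q (1 / s) ≤ 2 * DD q (1 / (c2 * s)) := by
    intro s hs
    have h1 : Tendsto (fun L : ℝ => 4 * DD q (1 / (c2 * s)) - 2 * DD q (1 / s) +
      (4 * DD q (1 / (c2 * (s + 2 * L))) + 4 * DD q (1 / (s + L)))) atTop
      (𝓝 (4 * DD q (1 / (c2 * s)) - 2 * DD q (1 / s) + 0)) := (lim0 s hs).const_add _
    have h2 := ge_of_tendsto h1 (by
      filter_upwards [eventually_gt_atTop 0] with L hL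
      exact key s L hs hL)
    linarith
  have iter : ∀ n : ℕ, DD q 1 ≤ 2 ^ n * DD q (1 / c2 ^ n) := by
    intro n
    induction n with
    | zero => simp
    | succ n ih =>
      have h1 := step (c2 ^ n) (by positivity)
      have e : c2 * c2 ^ n = c2 ^ (n + 1) := by ring
      rw [e] at h1
      have h2 : (0:ℝ) < 2 ^ n := by positivity
      calc DD q 1 ≤ 2 ^ n * DD q (1 / c2 ^ n) := ih
        _ ≤ 2 ^ n * (2 * DD q (1 / c2 ^ (n + 1))) := mul_le_mul_of_nonneg_left h1 h2.le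
        _ = 2 ^ (n + 1) * DD q (1 / c2 ^ (n + 1)) := by ring
  have bound : ∀ n : ℕ, DD q 1 ≤ C * (1/2) ^ n := by
    intro n
    have h1 := hle (1 / c2 ^ n) (by positivity)
    have e : (1 / c2 ^ n) ^ 6 = (1/4 : ℝ) ^ n := by
      have : c2 ^ 6 = 4 := by
        calc c2 ^ 6 = (c2 ^ 3) ^ 2 := by ring
          _ = 4 := by rw [c2_cube]; norm_num
      calc (1 / c2 ^ n) ^ 6 = (1 / c2 ^ 6) ^ n := by
            rw [div_pow, div_pow, one_pow, one_pow, ← pow_mul, ← pow_mul, mul_comm]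
        _ = (1/4 : ℝ) ^ n := by rw [this]
    rw [e] at h1
    have h2 : (0:ℝ) < 2 ^ n := by positivity
    calc DD q 1 ≤ 2 ^ n * DD q (1 / c2 ^ n) := iter n
      _ ≤ 2 ^ n * (C * (1/4) ^ n) := mul_le_mul_of_nonneg_left h1 h2.le
      _ = C * (2 ^ n * (1/4) ^ n) := by ring
      _ = C * (1/2) ^ n := by rw [← mul_pow]; norm_num
  have hlim : Tendsto (fun n : ℕ => C * (1/2 : ℝ) ^ n) atTop (𝓝 (C * 0)) :=
    (tendsto_pow_atTop_nhds_zero_of_lt_one (by norm_num) (by norm_num)).const_mul C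
  have h1 := ge_of_tendsto' hlim bound
  have h2 := DD_pos hq
  linarith

end Pool.Agent.N288.TFD
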