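import Pool.Agent.N894.WF.Defs

/-!
# Project WF (helper894): integral systems solvable modulo every `m` are solvable (helper288)
-/

set_option autoImplicit false

namespace Pool.Agent.N288.WF

open N894.WF

/-- an element of a finitely generated commutative group which is divisible by every `m` is zero -/
theorem divisible {M : Type} [AddCommGroup M] [AddGroup.FG M] (x : M)
    (h : ∀ m : ℕ, 0 < m → ∃ y : M, x = m • y) : x = 0 := by
  obtain ⟨n, ι, _, p, hp, e, ⟨φ⟩⟩ := AddCommGroup.equiv_free_prod_directSum_zmod M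
  have h1 : ∀ m : ℕ, 0 < m → ∃ y, φ x = m • y := by
    intro m hm
    obtain ⟨y, hy⟩ := h m hm
    exact ⟨φ y, by rw [hy, map_nsmul]⟩
  have h2 : φ x = 0 := by
    apply Prod.ext
    · ext j
      obtain ⟨y, hy⟩ := h1 (((φ x).1 j).natAbs + 1) (Nat.succ_pos _)
      have h3 : (φ x).1 j = (((φ x).1 j).natAbs + 1 : ℕ) * y.1 j := by
        conv_lhs => rw [hy]
        rw [Prod.smul_fst, Finsupp.smul_apply, nsmul_eq_mul]
      have h4 : ((((φ x).1 j).natAbs + 1 : ℕ) : ℤ) ∣ (φ x).1 j := ⟨_, h3⟩
      have h5 : (φ x).1 j = 0 := by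
        apply Int.eq_zero_of_abs_lt_dvd h4
        rw [Int.abs_eq_natAbs]
        exact_mod_cast Nat.lt_succ_self _
      simpa using h5
    · apply DFinsupp.ext
      intro i
      obtain ⟨y, hy⟩ := h1 (p i ^ e i) (pow_pos (hp i).pos _)
      rw [hy, Prod.smul_snd]
      have h3 : (((p i ^ e i : ℕ) • y.2 : DirectSum ι fun i => ZMod (p i ^ e i)) : ∀ i, _) i =
          (p i ^ e i : ℕ) • (y.2 i) := DFinsupp.nsmul_apply _ _ _
      rw [h3, nsmul_eq_mul, ZMod.natCast_self, zero_mul]
      rfl
  exact (map_eq_zero_iff φ φ.injective).1 h2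

theorem t_LIN1 : LeafLIN1 := by
  intro n r A v h
  have hx : (Submodule.Quotient.mk v : (Fin r → ℤ) ⧸ Submodule.span ℤ (Set.range A)) = 0 := by
    have hfg : AddGroup.FG ((Fin r → ℤ) ⧸ Submodule.span ℤ (Set.range A)) :=
      AddGroup.fg_iff_addMonoid_fg.2 (Module.Finite.iff_addMonoid_fg.1 inferInstance)
    apply divisible
    intro m hm
    obtain ⟨e, he⟩ := h m hm
    choose w hw using he
    refine ⟨Submodule.Quotient.mk (-w), ?_⟩
    rw [← Submodule.Quotient.mk_smul, Submodule.Quotient.eq]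
    have h1 : v - m • (-w) = ∑ i, e i • A i := by
      ext x
      have h2 := hw x
      rw [Pi.sub_apply, Pi.smul_apply, Pi.neg_apply, nsmul_eq_mul, Finset.sum_apply]
      simp only [Pi.smul_apply, smul_eq_mul]
      linarith
    rw [h1]
    exact Submodule.sum_mem _ fun i _ =>
      Submodule.smul_mem _ _ (Submodule.subset_span ⟨i, rfl⟩)
  rw [Submodule.Quotient.mk_eq_zero, Submodule.mem_span_range_iff_exists_fun] at hx
  obtain ⟨c, hc⟩ := hx
  refine ⟨c, fun x => ?_⟩
  have := congrFun hc x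
  rw [Finset.sum_apply] at this
  exact this

end Pool.Agent.N288.WF
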